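import Pool.Agent.U6.EK.Stm

/-! Project EK, package FM (helper925): the mean number of the Wilson primes in a window. -/

set_option autoImplicit false

namespace Pool.Agent.U925.EK

open Finset Filter Topology
open Pool.Agent.U923.PP (es cnt nev WH PW AllW WH_cnt mem_PW)
open Pool.Agent.Helper92K9.WI (gg)
open Pool.Agent.U6.EK

theorem t_FM (h : T_MU) : T_FM := by
  classical
  obtain ⟨C, hC, -, hM, -⟩ := h
  refine ⟨C + 1, by linarith, fun b H X w y hw hwy hX => ?_⟩
  have hy3 : 3 ≤ y := hw.trans hwy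
  have hX0 : (0 : ℝ) < X := by nlinarith
  have hmem : ∀ p ∈ PW w y, p.Prime ∧ w < p ∧ (p : ℝ) ≤ y := fun p hp =>
    (mem_PW (by linarith) (by linarith)).1 hp
  have h1 : ∑ a ∈ Icc 1 X, (nev (PW w y) (WH b H) a : ℝ) =
      ∑ p ∈ PW w y, cnt (Icc 1 X) (WH b H) {p} := by
    have e1 : ∀ a, (nev (PW w y) (WH b H) a : ℝ) =
        ∑ p ∈ PW w y, (if WH b H p a then (1 : ℝ) else 0) := by
      intro a
      unfold nev
      rw [card_filter]
      push_cast
      rfl
    simp only [e1]
    rw [sum_comm]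
    refine sum_congr rfl fun p _ => ?_
    unfold cnt
    refine sum_congr rfl fun a _ => ?_
    have h2 : AllW (WH b H) {p} a ↔ WH b H p a := by
      unfold AllW
      simp
    by_cases h3 : WH b H p a
    · rw [if_pos h3, if_pos (h2.2 h3)]
    · rw [if_neg h3, if_neg (fun h4 => h3 (h2.1 h4))]
  have h2 : ∀ p ∈ PW w y, cnt (Icc 1 X) (WH b H) {p} ≤ X * gg p + y := by
    intro p hp
    obtain ⟨hp1, hp2, hp3⟩ := hmem p hp
    have h3 := WH_cnt b H X (Z := y) {p} (fun q hq => by
      rw [mem_singleton] at hq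
      subst hq
      refine ⟨hp1, ?_⟩
      rintro rfl
      norm_num at hp2
      linarith) (fun q hq => by
      rw [mem_singleton] at hq
      subst hq
      exact hp3)
    rw [prod_singleton, card_singleton, pow_one, Nat.card_Icc, Nat.add_sub_cancel] at h3
    have := (abs_le.1 h3).2
    linarith
  have h3 : ((PW w y).card : ℝ) ≤ y := by
    have h4 : (PW w y).card ≤ ⌊y⌋₊ := by
      unfold PW
      refine (card_filter_le _ _).trans ?_
      rw [Nat.card_Ioc]
      exact Nat.sub_le _ _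
    have h5 : ((PW w y).card : ℝ) ≤ (⌊y⌋₊ : ℝ) := by exact_mod_cast h4
    exact h5.trans (Nat.floor_le (by linarith))
  rw [h1, div_le_iff₀ hX0]
  have h6 : ∑ p ∈ PW w y, cnt (Icc 1 X) (WH b H) {p} ≤ ∑ p ∈ PW w y, (X * gg p + y) :=
    sum_le_sum h2
  have h7 : ∑ p ∈ PW w y, ((X : ℝ) * gg p + y) = X * ∑ p ∈ PW w y, gg p + (PW w y).card * y := by
    rw [sum_add_distrib, mul_sum, sum_const, nsmul_eq_mul]
  have h8 : (X : ℝ) * ∑ p ∈ PW w y, gg p ≤ X * (Real.log (Real.log y / Real.log w) + C) :=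
    mul_le_mul_of_nonneg_left (hM w y hw hwy) hX0.le
  have h9 : ((PW w y).card : ℝ) * y ≤ y * y := mul_le_mul_of_nonneg_right h3 (by linarith)
  nlinarith

end Pool.Agent.U925.EK
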